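import Pool.Agent.U946.TR.Stm

set_option autoImplicit false

/-! Project TR (helper946), package RAM: Borel sets are completely Ramsey in every topological
Ramsey space. -/

namespace Pool.Agent.U901.TR

open Set Pool.Agent.Q147.TR Pool.Agent.U946.TR

variable {T : TRS}

theorem r_eq {X Y : T.R} {n : ℕ} (h : T.r n X = T.r n Y) {k : ℕ} (hk : k ≤ n) :
    T.r k X = T.r k Y := by
  rcases hk.lt_or_eq with h1 | h1
  · exact (T.A1c X Y n n h).2 k h1
  · rw [h1]; exact h

theorem len_eq {X Y : T.R} {m n : ℕ} (h : T.r m X = T.r n Y) : m = n := (T.A1c X Y m n h).1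

theorem In.refl (n : ℕ) (B : T.R) : In T n B B := ⟨T.le_refl B, rfl⟩

theorem In.trans {m n : ℕ} {A B C : T.R} (h1 : In T m C A) (hn : n ≤ m) (h2 : In T n A B) :
    In T n C B := ⟨T.le_trans _ _ _ h1.1 h2.1, (r_eq h1.2 hn).trans h2.2⟩

theorem Dep.of_eq {a : T.AR} {A B : T.R} {n m : ℕ} (h : Dep T a B n) (hnm : n ≤ m)
    (h2 : T.r m A = T.r m B) : Dep T a A n := by
  refine ⟨?_, fun k hk => ?_⟩
  · show T.lef a (T.r n A)
    rw [r_eq h2 hnm]
    exact h.1
  · by_contra hlt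
    have hlt' : k < n := not_le.mp hlt
    have h3 : T.lef a (T.r k A) := hk
    rw [r_eq h2 (hlt'.le.trans hnm)] at h3
    exact hlt (h.2 h3)

theorem Dep.inn {a : T.AR} {A B : T.R} {n : ℕ} (h : Dep T a B n) (h2 : In T n A B) :
    Dep T a A n := Dep.of_eq h le_rfl h2.2

theorem Dep.unique {a : T.AR} {B : T.R} {m n : ℕ} (h : Dep T a B m) (h' : Dep T a B n) : m = n :=
  IsLeast.unique h h'

theorem Dep.exists_of_le {X B : T.R} (h : T.le X B) (k : ℕ) : ∃ n, Dep T (T.r k X) B n := by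
  classical
  have h1 := (T.A2b X B).1 h k
  exact ⟨Nat.find h1, Nat.find_spec h1, fun m hm => Nat.find_min' h1 hm⟩

theorem Dep.exists_of_mem {a : T.AR} {B : T.R} {m : ℕ} (h : T.lef a (T.r m B)) :
    ∃ n ≤ m, Dep T a B n := by
  classical
  have h1 : ∃ m, T.lef a (T.r m B) := ⟨m, h⟩
  exact ⟨Nat.find h1, Nat.find_min' h1 h, Nat.find_spec h1, fun m hm => Nat.find_min' h1 hm⟩

/-- the depth is monotone along a point -/
theorem Dep.mono {X B : T.R} {k k' n n' : ℕ} (hk : k ≤ k') (h : Dep T (T.r k X) B n)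
    (h' : Dep T (T.r k' X) B n') : n ≤ n' := by
  obtain ⟨d, ⟨A, m, j, hmj, rfl, h2⟩, h3⟩ := T.A2c (T.r k X) (T.r k' X) (T.r n' B)
    ⟨X, k, k', hk, rfl, rfl⟩ h'.1
  have hj : n' = j := len_eq h2
  subst hj
  rw [← r_eq h2 hmj] at h3
  obtain ⟨n₁, hn₁, h4⟩ := Dep.exists_of_mem h3
  rw [h.unique h4]
  exact hn₁.trans hmj

theorem r_inj {X : T.R} : Function.Injective fun k => T.r k X := fun _ _ h => len_eq h

/-- the depths along a point are unbounded -/
theorem Dep.unbounded {X B : T.R} (h : T.le X B) (N K : ℕ) :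
    ∃ k ≥ K, ∀ n, Dep T (T.r k X) B n → N ≤ n := by
  by_contra hcon
  push Not at hcon
  have hfin : (⋃ j ∈ Finset.range N, {a | T.lef a (T.r j B)}).Finite :=
    Set.Finite.biUnion (Finset.finite_toSet _) fun j _ => T.A2a _
  have hsub : (fun k => T.r k X) '' {k | K ≤ k} ⊆ ⋃ j ∈ Finset.range N, {a | T.lef a (T.r j B)} := by
    rintro _ ⟨k, hk, rfl⟩
    obtain ⟨n, hn, hlt⟩ := hcon k hk
    rw [mem_iUnion₂]
    exact ⟨n, Finset.mem_range.mpr hlt, hn.1⟩
  have h1 := (hfin.subset hsub).of_finite_image (r_inj.injOn)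
  exact (Set.infinite_of_not_bddAbove (by
    rintro ⟨b, hb⟩
    have := hb (show b + K + 1 ∈ {k | K ≤ k} by simp; omega)
    omega)) h1

/-- the limit of a fusion sequence -/
theorem limit (n0 : ℕ) (B : ℕ → T.R) (hB : ∀ j, In T (n0 + j) (B (j + 1)) (B j)) :
    ∃ C, ∀ j, In T (n0 + j) C (B j) := by
  have h1 : ∀ j i, T.r (n0 + j) (B (j + i)) = T.r (n0 + j) (B j) := by
    intro j i
    induction i with
    | zero => rfl
    | succ i ih =>
      rw [← ih]
      exact r_eq (hB (j + i)).2 (by omega)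
  have hle : ∀ j i, T.le (B (j + i)) (B j) := by
    intro j i
    induction i with
    | zero => exact T.le_refl _
    | succ i ih => exact T.le_trans _ _ _ (hB (j + i)).1 ih
  obtain ⟨C, hC⟩ : ∃ C, ∀ n, T.r n C = T.r n (B n) := by
    letI : TopologicalSpace T.AR := ⊥
    haveI : DiscreteTopology T.AR := ⟨rfl⟩
    have hcl : IsClosed (Set.range fun A : T.R => fun n => T.r n A) := T.closed
    have hlim : Filter.Tendsto (fun j : ℕ => fun n => T.r n (B j)) Filter.atTop
        (nhds fun n => T.r n (B n)) := by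
      rw [tendsto_pi_nhds]
      intro n
      refine tendsto_const_nhds.congr' ?_
      filter_upwards [Filter.eventually_ge_atTop n] with j hj
      obtain ⟨i, rfl⟩ := Nat.exists_eq_add_of_le hj
      exact (r_eq (h1 n i) (by omega)).symm
    obtain ⟨C, hC⟩ := hcl.mem_of_tendsto hlim (Filter.Eventually.of_forall fun j => ⟨B j, rfl⟩)
    exact ⟨C, fun n => congrFun hC n⟩
  have h2 : ∀ n i, T.r n C = T.r n (B (n + i)) := by
    intro n i
    rw [hC]
    exact (r_eq (h1 n i) (by omega)).symm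
  refine ⟨C, fun j => ⟨?_, ?_⟩⟩
  · rw [T.A2b]
    intro n
    rw [h2 n j, add_comm n j]
    exact (T.A2b _ _).1 (hle j n) n
  · rw [h2 (n0 + j) 0, add_zero, add_comm n0 j]
    have := h1 j n0
    rw [add_comm n0 j] at this
    exact this

/-- **Fusion.** -/
theorem fusion (n0 : ℕ) (P : ℕ → T.AR → T.R → Prop)
    (hher : ∀ m a B C, P m a B → T.le C B → P m a C)
    (hden : ∀ m, n0 ≤ m → ∀ a B, Dep T a B m → ∃ C, In T m C B ∧ P m a C) (B0 : T.R) :
    ∃ C, In T n0 C B0 ∧ ∀ m, n0 ≤ m → ∀ a, Dep T a C m → P m a C := by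
  classical
  have stage : ∀ m, n0 ≤ m → ∀ B, ∃ B', In T m B' B ∧ ∀ a, Dep T a B' m → P m a B' := by
    intro m hm B
    have hs : ∀ s : Finset T.AR, ∃ B', In T m B' B ∧ ∀ a ∈ s, Dep T a B' m → P m a B' := by
      intro s
      induction s using Finset.induction_on with
      | empty => exact ⟨B, In.refl m B, fun a ha => by simp at ha⟩
      | insert a s _ ih =>
        obtain ⟨B1, h1, h2⟩ := ih
        by_cases hd : Dep T a B1 m
        · obtain ⟨C, hC, hP⟩ := hden m hm a B1 hd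
          refine ⟨C, In.trans hC le_rfl h1, fun b hb hdb => ?_⟩
          rcases Finset.mem_insert.mp hb with rfl | hb
          · exact hP
          · exact hher m b B1 C (h2 b hb (Dep.of_eq hdb le_rfl hC.2.symm)) hC.1
        · refine ⟨B1, h1, fun b hb hdb => ?_⟩
          rcases Finset.mem_insert.mp hb with rfl | hb
          · exact absurd hdb hd
          · exact h2 b hb hdb
    obtain ⟨B', h1, h2⟩ := hs (T.A2a (T.r m B)).toFinset
    refine ⟨B', h1, fun a ha => h2 a ?_ ha⟩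
    rw [Set.Finite.mem_toFinset]
    have := ha.1
    show T.lef a (T.r m B)
    rw [← h1.2]
    exact this
  choose! st hst1 hst2 using stage
  obtain ⟨B, hB0, hBs⟩ : ∃ B : ℕ → T.R, B 0 = B0 ∧ ∀ j, B (j + 1) = st (n0 + j) (B j) :=
    ⟨fun j => Nat.rec B0 (fun j b => st (n0 + j) b) j, rfl, fun _ => rfl⟩
  obtain ⟨C, hC⟩ := limit n0 B (fun j => by
    rw [hBs]
    exact hst1 (n0 + j) (by omega) (B j))
  refine ⟨C, ?_, fun m hm a ha => ?_⟩
  · have := hC 0
    rw [hB0] at this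
    exact this
  · obtain ⟨j, rfl⟩ := Nat.exists_eq_add_of_le hm
    have h1 := hC (j + 1)
    have h2 : Dep T a (B (j + 1)) (n0 + j) := Dep.of_eq ha (by omega : n0 + j ≤ n0 + (j + 1)) h1.2.symm
    have h3 := hst2 (n0 + j) hm (B j) a
    rw [← hBs] at h3
    exact hher _ _ _ _ (h3 h2) h1.1

/-- `C` accepts `v` -/
def Acc (T : TRS) (U : Set T.R) (v : T.AR) (C : T.R) : Prop := Cube T v C ⊆ U

/-- `C` rejects `v` -/
def Rej (T : TRS) (U : Set T.R) (v : T.AR) (C : T.R) : Prop :=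
  ∀ C', T.le C' C → (Cube T v C').Nonempty → ¬ Acc T U v C'

theorem Cube.mono {v : T.AR} {C C' : T.R} (h : T.le C' C) : Cube T v C' ⊆ Cube T v C :=
  fun _ hX => ⟨T.le_trans _ _ _ hX.1 h, hX.2⟩

theorem Acc.mono {U : Set T.R} {v : T.AR} {C C' : T.R} (h : Acc T U v C) (hle : T.le C' C) :
    Acc T U v C' := (Cube.mono hle).trans h

theorem Rej.mono {U : Set T.R} {v : T.AR} {C C' : T.R} (h : Rej T U v C) (hle : T.le C' C) :
    Rej T U v C' := fun D hD => h D (T.le_trans _ _ _ hD hle)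

theorem dec_dense (U : Set T.R) (v : T.AR) (B : T.R) (n : ℕ) (h : Dep T v B n) :
    ∃ C, In T n C B ∧ (Acc T U v C ∨ Rej T U v C) := by
  by_cases hr : Rej T U v B
  · exact ⟨B, In.refl n B, Or.inr hr⟩
  · unfold Rej at hr
    push Not at hr
    obtain ⟨C', h1, h2, h3⟩ := hr
    obtain ⟨A', h4, -, h6⟩ := T.A3b B v n h C' h1 h2
    exact ⟨A', h4, Or.inl fun X hX => h3 ⟨h6 X hX.1 hX.2, hX.2⟩⟩

theorem cube_ne {v : T.AR} {B C : T.R} {n : ℕ} (h : Dep T v B n) (hC : In T n C B) :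
    (Cube T v C).Nonempty := T.A3a B v n h C hC.1 hC.2

/-- completely Ramsey -/
def CR (T : TRS) (S : Set T.R) : Prop := ∀ (a : T.AR) (B : T.R) (n : ℕ), Dep T a B n →
    ∃ C, In T n C B ∧ (Cube T a C ⊆ S ∨ Disjoint (Cube T a C) S)

/-- open sets are completely Ramsey -/
theorem cr_open (O : Set T.AR) : CR T {X | ∃ k, T.r k X ∈ O} := by
  intro a B n ha
  set U : Set T.R := {X | ∃ k, T.r k X ∈ O} with hU
  obtain ⟨C, hC, hP⟩ := fusion n (fun _ v C => Acc T U v C ∨ (Rej T U v C ∧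
      ∀ X ∈ Cube T v C, ∀ l, T.r l X = v → Rej T U (T.r (l + 1) X) C))
    (by
      rintro m v B C (h | ⟨h, h'⟩) hle
      · exact Or.inl (h.mono hle)
      · exact Or.inr ⟨h.mono hle, fun X hX l hl => (h' X (Cube.mono hle hX) l hl).mono hle⟩)
    (by
      intro m _ v B hv
      obtain ⟨B1, h1, h2⟩ := fusion m (fun _ v C => Acc T U v C ∨ Rej T U v C)
        (by
          rintro m v B C (h | h) hle
          · exact Or.inl (h.mono hle)
          · exact Or.inr (h.mono hle))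
        (fun m _ v B hv => dec_dense U v B m hv) B
      have hv1 := Dep.inn hv h1
      rcases h2 m le_rfl v hv1 with h3 | h3
      · exact ⟨B1, h1, Or.inl h3⟩
      · obtain ⟨l, A, hA⟩ := T.surj v
        obtain ⟨C, hC, h4⟩ := T.A4 B1 v m l hv1 ⟨A, hA⟩ {w | Acc T U w B1}
        have hC' : In T m C B1 := hC
        refine ⟨C, In.trans hC' le_rfl h1, Or.inr ⟨h3.mono hC'.1, ?_⟩⟩
        rcases h4 with h4 | h4
        · exfalso
          refine h3 C hC'.1 (cube_ne hv1 hC') fun X hX => ?_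
          exact h4 X hX.1 hX.2 ⟨T.le_trans _ _ _ hX.1 hC'.1, l + 1, rfl⟩
        · intro X hX l' hl'
          have hll : l' = l := len_eq (hl'.trans hA.symm)
          subst hll
          have h5 : ¬ Acc T U (T.r (l' + 1) X) B1 := h4 X hX.1 hX.2
          have hXB : T.le X B1 := T.le_trans _ _ _ hX.1 hC'.1
          obtain ⟨m', hm'⟩ := Dep.exists_of_le hXB (l' + 1)
          have hmm : m ≤ m' := by
            have hv2 : Dep T (T.r l' X) B1 m := by rw [hl']; exact hv1
            exact Dep.mono (Nat.le_succ l') hv2 hm'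
          rcases h2 m' hmm _ hm' with h6 | h6
          · exact absurd h6 h5
          · exact h6.mono hC'.1) B
  have ha1 := Dep.inn ha hC
  rcases hP n le_rfl a ha1 with h | ⟨h, -⟩
  · exact ⟨C, hC, Or.inl h⟩
  · refine ⟨C, hC, Or.inr ?_⟩
    rw [Set.disjoint_left]
    rintro X ⟨hXC, l, hl⟩ ⟨k, hk⟩
    have key : ∀ i, Rej T U (T.r (l + i) X) C := by
      intro i
      induction i with
      | zero =>
        rw [add_zero, hl]
        exact h
      | succ i ih =>
        obtain ⟨m, hm⟩ := Dep.exists_of_le hXC (l + i)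
        have hnm : n ≤ m := by
          have hv2 : Dep T (T.r l X) C n := by rw [hl]; exact ha1
          exact Dep.mono (Nat.le_add_right l i) hv2 hm
        rcases hP m hnm _ hm with h7 | ⟨-, h7⟩
        · exact absurd h7 (ih C (T.le_refl C) ⟨X, hXC, l + i, rfl⟩)
        · exact h7 X ⟨hXC, l + i, rfl⟩ (l + i) rfl
    refine key k C (T.le_refl C) ⟨X, hXC, l + k, rfl⟩ ?_
    rintro Y ⟨-, j, hj⟩
    have : j = l + k := len_eq hj
    subst this
    refine ⟨k, ?_⟩
    rw [r_eq hj (by omega)]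
    exact hk

theorem cr_compl {S : Set T.R} (h : CR T S) : CR T Sᶜ := by
  intro a B n ha
  obtain ⟨C, hC, h1 | h1⟩ := h a B n ha
  · exact ⟨C, hC, Or.inr (Set.disjoint_compl_right_iff_subset.mpr h1)⟩
  · exact ⟨C, hC, Or.inl (Set.subset_compl_iff_disjoint_right.mpr h1)⟩

theorem cr_iUnion {S : ℕ → Set T.R} (h : ∀ j, CR T (S j)) : CR T (⋃ j, S j) := by
  intro a B n ha
  obtain ⟨C0, hC0, hP⟩ := fusion n (fun m v C => ∀ j ≤ m, Cube T v C ⊆ S j ∨ Disjoint (Cube T v C) (S j))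
    (by
      intro m v B C hm hle j hj
      rcases hm j hj with h1 | h1
      · exact Or.inl ((Cube.mono hle).trans h1)
      · exact Or.inr (h1.mono_left (Cube.mono hle)))
    (by
      intro m _ v B hv
      have : ∀ M, ∃ C, In T m C B ∧ ∀ j < M, Cube T v C ⊆ S j ∨ Disjoint (Cube T v C) (S j) := by
        intro M
        induction M with
        | zero => exact ⟨B, In.refl m B, fun j hj => by omega⟩
        | succ M ih =>
          obtain ⟨C, hC, h1⟩ := ih
          obtain ⟨C', hC', h2⟩ := h M v C m (Dep.inn hv hC)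
          refine ⟨C', In.trans hC' le_rfl hC, fun j hj => ?_⟩
          rcases Nat.lt_succ_iff_lt_or_eq.mp hj with h3 | rfl
          · rcases h1 j h3 with h4 | h4
            · exact Or.inl ((Cube.mono hC'.1).trans h4)
            · exact Or.inr (h4.mono_left (Cube.mono hC'.1))
          · exact h2
      obtain ⟨C, hC, h1⟩ := this (m + 1)
      exact ⟨C, hC, fun j hj => h1 j (by omega)⟩) B
  have ha0 := Dep.inn ha hC0
  obtain ⟨C, hC, h1⟩ := cr_open {v | Cube T v C0 ⊆ ⋃ j, S j} a C0 n ha0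
  refine ⟨C, In.trans hC le_rfl hC0, ?_⟩
  rcases h1 with h1 | h1
  · left
    intro X hX
    obtain ⟨k, hk⟩ := h1 hX
    exact hk ⟨T.le_trans _ _ _ hX.1 hC.1, k, rfl⟩
  · right
    rw [Set.disjoint_left] at h1 ⊢
    intro X hX hXS
    refine h1 hX ?_
    obtain ⟨j, hj⟩ := mem_iUnion.mp hXS
    obtain ⟨hXC, l, hl⟩ := hX
    have hX0 : T.le X C0 := T.le_trans _ _ _ hXC hC.1
    obtain ⟨k, hk, hk2⟩ := Dep.unbounded hX0 (max n j) l
    obtain ⟨m, hm⟩ := Dep.exists_of_le hX0 k
    have h2 := hk2 m hm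
    refine ⟨k, ?_⟩
    rcases hP m ((le_max_left _ _).trans h2) _ hm j ((le_max_right _ _).trans h2) with h3 | h3
    · exact h3.trans (subset_iUnion S j)
    · exact absurd hj (Set.disjoint_left.mp h3 ⟨hX0, k, rfl⟩)

theorem open_form (U : Set T.R) (hU : @IsOpen T.R (polish T) U) :
    ∃ O : Set T.AR, U = {X | ∃ k, T.r k X ∈ O} := by
  letI : TopologicalSpace T.AR := ⊥
  haveI : DiscreteTopology T.AR := ⟨rfl⟩
  obtain ⟨V, hV, rfl⟩ := isOpen_induced_iff.mp hU
  refine ⟨{v | ∀ Y : T.R, (∃ k, T.r k Y = v) → (fun n => T.r n Y) ∈ V}, ?_⟩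
  ext X
  constructor
  · intro hX
    obtain ⟨I, u, h1, h2⟩ := isOpen_pi_iff.mp hV _ hX
    obtain ⟨k, hk⟩ : ∃ k, ∀ i ∈ I, i ≤ k := ⟨I.sup id, fun i hi => Finset.le_sup (f := id) hi⟩
    refine ⟨k, fun Y hY => ?_⟩
    obtain ⟨j, hj⟩ := hY
    have : j = k := len_eq hj
    subst this
    refine h2 fun i hi => ?_
    have := (h1 i hi).2
    show T.r i Y ∈ u i
    rw [r_eq hj (hk i hi)]
    exact this
  · rintro ⟨k, hk⟩
    exact hk X ⟨k, rfl⟩

theorem t_RAM : S_RAM := by
  intro T S hS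
  have : CR T S := by
    unfold BorelSet at hS
    refine MeasurableSpace.generateFrom_induction _ (fun S _ => CR T S) ?_ ?_ ?_ ?_ S hS
    · intro U hU _
      obtain ⟨O, rfl⟩ := open_form U hU
      exact cr_open O
    · intro a B n ha
      exact ⟨B, In.refl n B, Or.inr (Set.disjoint_empty _)⟩
    · intro U _ h
      exact cr_compl h
    · intro f _ h
      exact cr_iUnion h
  exact this

end Pool.Agent.U901.TR
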